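import Pool.Agent.TH305.AX.BVfin
import Pool.Agent.TH305.AX.BVanc

/-!
Axisymmetric Navier-Stokes flows with swirl: under a one-sided condition on the radial velocity
alone the circulation is at most that of the (time-dependent) Lamb-Oseen or Burgers vortex; ancient
solutions with bounded circulation which satisfy it, or a one-sided condition of type I, have no
swirl.

`V = Fin 3 → ℝ` with the maximum norm. See the claim file for the definitions.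
-/

open MeasureTheory Set Metric

namespace Pool.Agent.Results.MP_09540e_an.BurgersComparison

open H459R3.NS W221.NS Pool.Agent.TH305.AX

/-- Let `Γ = circ (u t)` be the circulation, `σ = sg x` the square of the distance to the axis.

First, let `(u, p)` be a smooth axisymmetric solution of the Navier-Stokes equations on
`[0, T) × ℝ³`, `u` bounded on `[0, T'] × ℝ³` for each `T' < T`, `|Γ| ≤ M` at time `0`,
`0 < μ ≤ 2`, `δ ≥ 0`, `B` continuous (of any sign). If `ρ u_ρ ≥ -(2 - μ) ν - B(t) ρ ^ 2` at all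
points with `|Γ| > δ`, then `|Γ| ≤ δ + M (1 - exp (-ρ ^ 2 / φ(t))) ^ (μ / 2)`, where
`φ(t) = 2 μ ν ∫_0^t exp (-2 ∫_s^t B) ds`.

Second, let `u` be an ancient solution, on `(-∞, 0) × ℝ³`, in the same class from each time on, with
`|Γ| ≤ M`, and let `∫_{-∞}^t exp (-2 ∫_s^t B) ds = ∞`. If for each `δ > 0` there is a `μ > 0` such
that `ρ u_ρ ≥ -(2 - μ) ν - B(t) ρ ^ 2` at all points with `|Γ| > δ`, then `Γ = 0`.

Third, let `u` be an ancient solution as in the second part. If for each `δ > 0` there are `μ > 0`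
and `C` such that `ρ u_ρ ≥ -(2 - μ) ν - C ρ / √(-t)` at all points with `|Γ| > δ`, then `Γ = 0`. -/
theorem result (ν : ℝ) (hν : 0 < ν) :
    (∀ (T : ℝ) (u : ℝ → V → V) (p : ℝ → V → ℝ), BSol ν T u p →
      ∀ (M δ μ : ℝ) (B : ℝ → ℝ), 0 ≤ M → 0 ≤ δ → 0 < μ → μ ≤ 2 → ContinuousOn B (Ico 0 T) →
      (∀ x, |circ (u 0) x| ≤ M) →
      (∀ t ∈ Ioo 0 T, ∀ x, 0 < sg x → δ < |circ (u t) x| →
        -((2 - μ) * ν) - B t * sg x ≤ x 0 * u t x 0 + x 1 * u t x 1) →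
      ∀ t ∈ Ioo 0 T, ∀ x, |circ (u t) x| ≤
        δ + M * (1 - Real.exp (-(sg x / rad μ ν B 0 t))) ^ (μ / 2)) ∧
    (∀ (u : ℝ → V → V) (p : ℝ → V → ℝ),
      (∀ t₀ < 0, BSol ν (-t₀) (fun t => u (t₀ + t)) (fun t => p (t₀ + t))) →
      ∀ (M : ℝ) (B : ℝ → ℝ), (∀ t < 0, ∀ x, |circ (u t) x| ≤ M) → ContinuousOn B (Iio 0) →
      (∀ t < 0, ∀ L : ℝ, ∃ t₀ < t, L ≤ ∫ s in t₀..t, Real.exp (-2 * ∫ r in s..t, B r)) →
      (∀ δ > 0, ∃ μ > 0, ∀ t < 0, ∀ x, 0 < sg x → δ < |circ (u t) x| →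
        -((2 - μ) * ν) - B t * sg x ≤ x 0 * u t x 0 + x 1 * u t x 1) →
      ∀ t < 0, ∀ x, circ (u t) x = 0) ∧
    ∀ (u : ℝ → V → V) (p : ℝ → V → ℝ),
      (∀ t₀ < 0, BSol ν (-t₀) (fun t => u (t₀ + t)) (fun t => p (t₀ + t))) →
      ∀ M : ℝ, (∀ t < 0, ∀ x, |circ (u t) x| ≤ M) →
      (∀ δ > 0, ∃ μ > 0, ∃ C : ℝ, ∀ t < 0, ∀ x, 0 < sg x → δ < |circ (u t) x| →
        -((2 - μ) * ν) - C * √(sg x) / √(-t) ≤ x 0 * u t x 0 + x 1 * u t x 1) →
      ∀ t < 0, ∀ x, circ (u t) x = 0 :=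
  ⟨fun _ _ _ h _ _ _ _ hM hδ hμ hμ2 hB hin hc => swirl_bound hν h hM hδ hμ hμ2 hB hin hc,
    fun _ _ h _ _ hM hB hdiv hc => ancient hν h hM hB hdiv hc,
    fun _ _ h _ hM hc => ancientC hν h hM hc⟩

end Pool.Agent.Results.MP_09540e_an.BurgersComparison
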