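import Pool.Agent.TH305.AX.Log2

/-!
Axisymmetric solutions of the three-dimensional Navier-Stokes equations with swirl: the critical
size `- 2 ν / ρ` of the radial velocity, with a logarithmic correction.

`V = Fin 3 → ℝ` with the maximum norm. `sg x = x₀² + x₁²` is the square of the distance `ρ` to the
axis, `circ v x = x₀ v₁ - x₁ v₀` the circulation `Γ = ρ v_θ`, and `x₀ v₀ + x₁ v₁ = ρ v_ρ`. `AxSol`
is the class of the solutions.
-/

open MeasureTheory Set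

namespace Pool.Agent.Results.MP_09540e_an.LogThreshold

open H459R3.NS W221.NS Pool.Agent.TH305.DR Pool.Agent.TH305.AX

/-- Let `u` be a smooth axisymmetric solution on `[0, T) × ℝ³`, with viscosity `ν`, which tends to
zero at infinity. Let `α > 0`, `0 < R < R₀`, `L = log (R₀ / ρ)`, and suppose that `|Γ| ≤ M` at
`t = 0`. Let `A ≥ M log (R₀ / R) ^ α` be such that `|Γ| L ^ α ≤ A` for `t = 0`, `0 < ρ ≤ R` (there
is such an `A`), and `B ≥ 0` a continuous function on `[0, T)`. Suppose that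

`ρ u_ρ ≥ - 2 ν + (α + 1) ν / L - B(t) ρ² L`

at all points with `0 < t < T`, `0 < ρ < R` at which `|Γ| L ^ α` is larger than `A` and equal to
its maximum on `0 < ρ ≤ R` at this time. Then `|Γ| L ^ α ≤ A exp (α ∫₀ᵗ B)` for `0 < ρ ≤ R`. -/
theorem result : ∀ (ν T : ℝ) (u : ℝ → V → V) (p : ℝ → V → ℝ), 0 < ν → AxSol ν T u p →
    ∀ α R R₀ : ℝ, 0 < α → 0 < R → R < R₀ →
    (0 < T → ∃ A : ℝ, ∀ x, 0 < sg x → sg x ≤ R ^ 2 →
      |circ (u 0) x| * Real.log (R₀ / √(sg x)) ^ α ≤ A) ∧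
    ∀ M A : ℝ, (∀ x, |circ (u 0) x| ≤ M) → M * Real.log (R₀ / R) ^ α ≤ A →
      (∀ x, 0 < sg x → sg x ≤ R ^ 2 → |circ (u 0) x| * Real.log (R₀ / √(sg x)) ^ α ≤ A) →
      ∀ B : ℝ → ℝ, ContinuousOn B (Ico 0 T) → (∀ t ∈ Ico 0 T, 0 ≤ B t) →
      (∀ t ∈ Ioo 0 T, ∀ x, 0 < sg x → sg x < R ^ 2 →
        A < |circ (u t) x| * Real.log (R₀ / √(sg x)) ^ α →
        (∀ y, 0 < sg y → sg y ≤ R ^ 2 → |circ (u t) y| * Real.log (R₀ / √(sg y)) ^ α
          ≤ |circ (u t) x| * Real.log (R₀ / √(sg x)) ^ α) →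
        -(2 * ν) + (α + 1) * ν / Real.log (R₀ / √(sg x)) - B t * sg x * Real.log (R₀ / √(sg x))
          ≤ x 0 * u t x 0 + x 1 * u t x 1) →
      ∀ t ∈ Ico 0 T, ∀ x, 0 < sg x → sg x ≤ R ^ 2 →
        |circ (u t) x| * Real.log (R₀ / √(sg x)) ^ α ≤ A * Real.exp (α * ∫ r in (0 : ℝ)..t, B r) :=
  fun _ _ _ _ hν h _ _ _ hα hR hR₀ => ⟨fun hT => log_ini h hT hα hR hR₀,
    fun _ _ hM hA1 hA2 _ hB hB0 hcond => loginflow hν h hα hR hR₀ hM hA1 hA2 hB hB0 hcond⟩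

end Pool.Agent.Results.MP_09540e_an.LogThreshold
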