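import Pool.Agent.TH305.AX.Fin

/-!
Axisymmetric solutions of the three-dimensional Navier-Stokes equations with swirl: a lower bound of
type I for the radial velocity alone, near the axis, makes the circulation Hölder continuous at the
axis, uniformly up to a possible blow-up time.

`V = Fin 3 → ℝ` with the maximum norm. `sg x = x₀² + x₁²` is the square of the distance `ρ` to the
axis, `circ v x = x₀ v₁ - x₁ v₀` the circulation `Γ = ρ v_θ`, and `x₀ v₀ + x₁ v₁ = ρ v_ρ`. `AxSol`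
is the class of the solutions.
-/

open MeasureTheory Set

namespace Pool.Agent.Results.MP_09540e_an.OneSidedTypeI

open H459R3.NS W221.NS Pool.Agent.TH305.DR Pool.Agent.TH305.AX

/-- Let `ν > 0`, `C ≥ 0` and `0 < μ < 1`. There is a `γ > 0` with the following property. Let `u` be
a smooth axisymmetric solution on `[0, T) × ℝ³`, which tends to zero at infinity, with bounded
circulation at the initial time. Let `R > 0`, `K ≥ 0` and let `B ≥ 0` be a continuous function on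
`[0, T)`. If

`u_ρ ≥ - (2 - μ) ν / ρ - C / √(T - t) - B(t) ρ`

at all points with `0 < ρ < R`, `0 < t < T` at which the absolute value of the circulation is
larger than `K ρ ^ μ`, then the circulation is at most `A exp (∫₀ᵗ B) ρ ^ γ` for `ρ ≤ R`. -/
theorem result : ∀ ν C μ : ℝ, 0 < ν → 0 ≤ C → 0 < μ → μ < 1 →
    ∃ γ : ℝ, 0 < γ ∧ ∀ (T : ℝ) (u : ℝ → V → V) (p : ℝ → V → ℝ), AxSol ν T u p →
      ∀ M : ℝ, (∀ x, |circ (u 0) x| ≤ M) → ∀ R K : ℝ, 0 < R → 0 ≤ K →
      ∀ B : ℝ → ℝ, ContinuousOn B (Ico 0 T) → (∀ t ∈ Ico 0 T, 0 ≤ B t) →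
      (∀ t ∈ Ioo 0 T, ∀ x, 0 < sg x → sg x < R ^ 2 → K * √(sg x) ^ μ < |circ (u t) x| →
        -((2 - μ) * ν) - C * √(sg x) / √(T - t) - B t * sg x ≤ x 0 * u t x 0 + x 1 * u t x 1) →
      ∃ A : ℝ, ∀ t ∈ Ico 0 T, ∀ x, sg x ≤ R ^ 2 →
        |circ (u t) x| ≤ A * Real.exp (∫ r in (0 : ℝ)..t, B r) * √(sg x) ^ γ :=
  fun _ _ _ hν hC hμ hμ1 => onesided hν hC hμ hμ1

end Pool.Agent.Results.MP_09540e_an.OneSidedTypeI
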