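import Pool.Agent.TH305.AX.Wd

/-!
Axisymmetric Navier-Stokes flows with swirl: pointwise bounds of all derivatives of the vorticity
and of the velocity in terms of the distance to the axis and of the dissipation in a short time
window, and outside small sets of times.

`V = Fin 3 → ℝ` with the maximum norm. See the claim file for the definitions.
-/

open MeasureTheory Set Metric
open scoped ENNReal

namespace Pool.Agent.Results.MP_09540e_an.WeightedDerivatives

open H459R3.NS W221.NS Pool.Agent.TH305.DR Pool.Agent.TH305.AX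

/-- There are an absolute constant `C` and constants `K n` with the following properties. Let
`(u, p)` be a smooth axisymmetric solution (with swirl) of the Navier-Stokes equations with
viscosity `ν` and without force on `(0, T) × ℝ³`, with `∫ |u|² ≤ E²` at all times, and let
`ρ = √(sg x)` be the distance of `x` to the axis.

First, if `r ^ 2 / ν < s < T` and `∫∫ |∇u|²`, the integral over the times between `s - r ^ 2 / ν`
and `s`, is less than `(ν / C) (ρ + r)`, then all derivatives of order `n ≥ 0` of the vorticity at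
`(x, s)` are at most `K n ν / r ^ (n + 2)` and those of the velocity are at most
`K n (ν + E / √(ρ + r)) / r ^ (n + 1)`.

Second, for each `m > 0` there is a set `Z` of times of measure at most `(5 / m) ∫∫ |∇u|²` such that
for all times `s` in `(0, T)` outside `Z` and ALL points `x`, the derivatives of order `n` of the
vorticity are at most `K n ν Y ^ (n + 2)` and those of the velocity are at most
`K n (ν + E / √(ρ + 1 / Y)) Y ^ (n + 1)`, where
`Y ^ 2 = m ^ 2 / (ν ^ 2 (m ρ + ν ^ 2)) + 1 / (ν s)`. -/
theorem result : ∃ C : ℝ, 0 < C ∧ ∃ K : ℕ → ℝ, (∀ n, 0 < K n) ∧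
    ∀ (ν T E : ℝ) (u : ℝ → V → V) (p : ℝ → V → ℝ), 0 < ν → 0 ≤ E → OSol ν T E univ u p →
      (∀ t ∈ Ioo 0 T, Axi (u t)) →
      (∀ (r s : ℝ) (x : V), 0 < r → r ^ 2 / ν < s → s < T →
        ∫⁻ t in Ioo (s - r ^ 2 / ν) s, ∫⁻ y, ENNReal.ofReal (gsq (u t) y)
          < ENNReal.ofReal (ν / C * (√(sg x) + r)) →
        ∀ l : List (Fin 3),
          (∀ i j, |dl l (vo (u s) i j) x| ≤ K l.length * ν / r ^ (l.length + 2)) ∧
          ∀ i, |dl l (fun y => u s y i) x|
            ≤ K l.length * (ν + E / √(√(sg x) + r)) / r ^ (l.length + 1)) ∧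
      ∀ m : ℝ, 0 < m → ∃ Z : Set ℝ,
        volume Z ≤ ENNReal.ofReal (5 / m) *
          ∫⁻ t in Ioo 0 T, ∫⁻ y, ENNReal.ofReal (gsq (u t) y) ∧
        ∀ s ∈ Ioo 0 T, s ∉ Z → ∀ (x : V) (l : List (Fin 3)),
          (∀ i j, |dl l (vo (u s) i j) x| ≤ K l.length * ν * Yw ν m s x ^ (l.length + 2)) ∧
          ∀ i, |dl l (fun y => u s y i) x| ≤
            K l.length * (ν + E / √(√(sg x) + 1 / Yw ν m s x)) * Yw ν m s x ^ (l.length + 1) :=
  Pool.Agent.TH305.AX.wd

end Pool.Agent.Results.MP_09540e_an.WeightedDerivatives
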